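import Mathlib
import Pool.Agent.Q60.D3.Stm3

/-!
# Project D3 of helper60: JOB CLOSE
-/

set_option autoImplicit false

namespace Pool.Agent.Q176.D3

open Matrix Pool.Agent.Q60.D3 Pool.Agent.H204R3.CM Pool.Agent.W437.HC Pool.Agent.W437.HD
  Pool.Agent.W437.HP Pool.Agent.W437.HR

section aux

variable {g : ℕ} {Z : Matrix (Fin g) (Fin g) ℂ}

theorem simple_transport (A : AV) (e : A.H ≃ₗ[ℚ] (Fin g ⊕ Fin g → ℚ))
    (C : A.T ≃ₗ[ℂ] (Fin g → ℂ)) (hC : ∀ w, C (A.per w) = perOne Z (e w)) (hs : IsSimple A) :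
    IsSimpleAV Z := by
  intro U hU
  have him : perOne Z '' U = (C.restrictScalars ℝ) '' (A.per '' (U.comap e.toLinearMap)) := by
    ext x
    constructor
    · rintro ⟨y, hy, rfl⟩
      refine ⟨A.per (e.symm y), ⟨e.symm y, ?_, rfl⟩, ?_⟩
      · change e (e.symm y) ∈ U
        rw [LinearEquiv.apply_symm_apply]
        exact hy
      · change C (A.per (e.symm y)) = _
        rw [hC, LinearEquiv.apply_symm_apply]
    · rintro ⟨_, ⟨w, hw, rfl⟩, rfl⟩
      exact ⟨e w, hw, (hC w).symm⟩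
  have hspan : Submodule.span ℝ (perOne Z '' U) =
      (Submodule.span ℝ (A.per '' (U.comap e.toLinearMap))).map
        (C.restrictScalars ℝ).toLinearMap := by
    rw [him, Submodule.map_span]
    rfl
  rcases hs (U.comap e.toLinearMap) (fun x hx => by
    have h1 : (C.restrictScalars ℝ) x ∈ Submodule.span ℝ (perOne Z '' U) := by
      rw [hspan]
      exact ⟨x, hx, rfl⟩
    have h2 := hU _ h1
    rw [hspan] at h2
    obtain ⟨y, hy, hy2⟩ := h2
    have h3 : y = Complex.I • x := by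
      apply C.injective
      rw [map_smul]
      exact hy2
    rwa [← h3]) with h | h
  · left
    rw [eq_bot_iff]
    intro y hy
    have h1 : e.symm y ∈ U.comap e.toLinearMap := by
      change e (e.symm y) ∈ U
      rw [LinearEquiv.apply_symm_apply]
      exact hy
    rw [h] at h1
    have h2 : e.symm y = 0 := h1
    have h3 : y = 0 := by
      rw [← LinearEquiv.apply_symm_apply e y, h2, map_zero]
    rw [h3]
    exact Submodule.zero_mem _
  · right
    rw [eq_top_iff]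
    intro y _
    have h1 : e.symm y ∈ U.comap e.toLinearMap := by
      rw [h]
      trivial
    have h2 : e (e.symm y) ∈ U := h1
    rwa [LinearEquiv.apply_symm_apply] at h2

end aux

section prod

variable {ι : Type} [Fintype ι] [DecidableEq ι] {g : ι → ℕ}
  (Z : ∀ i, Matrix (Fin (g i)) (Fin (g i)) ℂ)

theorem perOne_pm (i : ι) (w : Fin (NB g) ⊕ Fin (NB g) → ℚ) :
    perOne (Z i) (pm g ℚ i *ᵥ w) = qm g ℂ i *ᵥ perOne (bigD ℂ Z) w :=
  congrFun (pr_per Z (fun _ : Fin 1 => i) (fun _ => w)) 0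

end prod

theorem close (h1 : S_nf) (h2 : S_cmd) : S_close := by
  classical
  intro hmain ι _ X A hiso hs hd hcm κ _ f hf
  obtain ⟨_⟩ := nonempty_fintype ι
  obtain ⟨_⟩ := nonempty_fintype κ
  obtain ⟨p, hp, hbij⟩ := hiso
  choose g Z e C hZ hpos hC using fun i => h1 (A i)
  have hfr : ∀ i, Module.finrank ℂ (A i).T = g i := fun i => by
    rw [(C i).finrank_eq, Module.finrank_fin_fun]
  choose Ct hCt using hp
  -- the homology
  let al : X.H →ₗ[ℚ] (Fin (NB g) ⊕ Fin (NB g) → ℚ) :=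
    ∑ i, (Matrix.mulVecLin (pm g ℚ i)ᵀ) ∘ₗ (e i).toLinearMap ∘ₗ (p i)
  have hal : ∀ v, al v = ∑ i, (pm g ℚ i)ᵀ *ᵥ (e i (p i v)) := by
    intro v
    simp only [al, LinearMap.sum_apply]
    rfl
  have hpa : ∀ i v, pm g ℚ i *ᵥ al v = e i (p i v) := by
    intro i v
    rw [hal, mulVec_sum, Finset.sum_eq_single i]
    · rw [mulVec_mulVec, pm_same, one_mulVec]
    · intro j _ hj
      rw [mulVec_mulVec, pm_off ℚ (Ne.symm hj), zero_mulVec]
    · intro h
      exact absurd (Finset.mem_univ _) h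
  have hinj : Function.Injective al := by
    rw [injective_iff_map_eq_zero]
    intro v hv
    apply hbij.1
    funext i
    have h3 := hpa i v
    rw [hv, mulVec_zero] at h3
    change p i v = p i 0
    rw [map_zero]
    exact (e i).injective (by rw [← h3, map_zero])
  have hsurj : Function.Surjective al := by
    intro y
    obtain ⟨v, hv⟩ := hbij.2 fun i => (e i).symm (pm g ℚ i *ᵥ y)
    refine ⟨v, ?_⟩
    rw [hal]
    have h3 : ∀ i, e i (p i v) = pm g ℚ i *ᵥ y := by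
      intro i
      have h4 : p i v = (e i).symm (pm g ℚ i *ᵥ y) := congrFun hv i
      rw [h4, LinearEquiv.apply_symm_apply]
    have h5 : ∑ i, (pm g ℚ i)ᵀ *ᵥ (e i (p i v)) = (∑ i, (pm g ℚ i)ᵀ * pm g ℚ i) *ᵥ y := by
      rw [sum_mulVec]
      refine Finset.sum_congr rfl fun i _ => ?_
      rw [h3, mulVec_mulVec]
    rw [h5, pm_tot, one_mulVec]
  let a : X.H ≃ₗ[ℚ] (Fin (NB g) ⊕ Fin (NB g) → ℚ) := LinearEquiv.ofBijective al ⟨hinj, hsurj⟩
  -- the tangent space
  let cl : X.T →ₗ[ℂ] (Fin (NB g) → ℂ) :=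
    ∑ i, (Matrix.mulVecLin (qm g ℂ i)ᵀ) ∘ₗ (C i).toLinearMap ∘ₗ (Ct i)
  have hcl : ∀ v, cl v = ∑ i, (qm g ℂ i)ᵀ *ᵥ (C i (Ct i v)) := by
    intro v
    simp only [cl, LinearMap.sum_apply]
    rfl
  have hper : ∀ w, cl (X.per w) = perOne (bigD ℂ Z) (a w) := by
    intro w
    rw [hcl]
    have h3 : ∀ i, C i (Ct i (X.per w)) = qm g ℂ i *ᵥ perOne (bigD ℂ Z) (a w) := by
      intro i
      rw [hCt, hC, ← perOne_pm Z i (a w)]
      congr 1
      exact (hpa i w).symm
    have h4 : ∑ i, (qm g ℂ i)ᵀ *ᵥ (C i (Ct i (X.per w))) =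
        (∑ i, (qm g ℂ i)ᵀ * qm g ℂ i) *ᵥ perOne (bigD ℂ Z) (a w) := by
      rw [sum_mulVec]
      refine Finset.sum_congr rfl fun i _ => ?_
      rw [h3, mulVec_mulVec]
    rw [h4, qm_tot, one_mulVec]
  have hsurjT : LinearMap.range cl = ⊤ := by
    rw [eq_top_iff, ← (Pi.basisFun ℂ (Fin (NB g))).span_eq, Submodule.span_le]
    rintro _ ⟨j, rfl⟩
    refine ⟨X.per (a.symm (Pi.single (Sum.inl j) 1)), ?_⟩
    rw [hper, LinearEquiv.apply_symm_apply, Pi.basisFun_apply]
    funext k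
    change ((Pi.single (Sum.inl j) 1 : Fin (NB g) ⊕ Fin (NB g) → ℚ) (Sum.inl k) : ℂ) +
      ∑ l, bigD ℂ Z k l * (((Pi.single (Sum.inl j) 1 : Fin (NB g) ⊕ Fin (NB g) → ℚ)
        (Sum.inr l) : ℚ) : ℂ) = _
    have h3 : ∀ l, (Pi.single (Sum.inl j) 1 : Fin (NB g) ⊕ Fin (NB g) → ℚ) (Sum.inr l) = 0 := by
      intro l
      rw [Pi.single_apply, if_neg (by simp)]
    simp only [h3, Rat.cast_zero, mul_zero, Finset.sum_const_zero, add_zero, Pi.single_apply,
      Sum.inl.injEq]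
    split_ifs <;> simp
  have hdim : Module.finrank ℂ X.T = Module.finrank ℂ (Fin (NB g) → ℂ) := by
    have h3 := X.dim
    rw [a.finrank_eq, Module.finrank_fintype_fun_eq_card, Fintype.card_sum, Fintype.card_fin] at h3
    rw [Module.finrank_fin_fun]
    omega
  have hsT : Function.Surjective cl := LinearMap.range_eq_top.1 hsurjT
  have hiT : Function.Injective cl :=
    (LinearMap.injective_iff_surjective_of_finrank_eq_finrank hdim).2 hsT
  let c : X.T ≃ₗ[ℂ] (Fin (NB g) → ℂ) := LinearEquiv.ofBijective cl ⟨hiT, hsT⟩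
  refine hmain ι g Z hZ hpos (fun i => simple_transport (A i) (e i) (C i) (hC i) (hs i))
    (fun i => ?_) (fun i hi => ?_) X a c hper κ f hf
  · rw [← hfr i]
    exact hd i
  · rw [← hfr i]
    exact hcm i (h2 (A i) (g i) (Z i) (e i) (C i) (hZ i) (hpos i) (hC i) (hs i) hi)

end Pool.Agent.Q176.D3
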