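import Mathlib
import Pool.Agent.Q60.D3.Stm3

/-!
# Project D3 of helper60: JOB DARB and SPS
-/

set_option autoImplicit false

namespace Pool.Agent.Q176.D3

open Pool.Agent.Q60.D3 Pool.Agent.H204R3.SP Pool.Agent.W437.HD Pool.Agent.W437.HP

theorem sps : S_sps := by
  intro N _ _ _ w hw hn A hA
  exact mem_span_EE hw hn hA

theorem darb : S_darb := by
  classical
  intro N _ _ _ w hw hn
  obtain ⟨R, _, _, e, inv, jj, hinv, hne, hjj, hj1, hω⟩ :=
    exists_darboux (Module.finrank ℂ N) N w hw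
      (fun u hu => hn u fun y => by rw [alt_anti hw, hu, neg_zero]) le_rfl
  have hj2 : ∀ x, jj x ≠ 1 → jj x = -1 := fun x h => (hj1 x).resolve_left h
  have hj3 : ∀ x, jj x = 1 → jj (inv x) ≠ 1 := by
    intro x h h'
    have h1 := hjj x
    rw [h, h'] at h1
    norm_num at h1
  have hj4 : ∀ x, jj x ≠ 1 → jj (inv x) = 1 := by
    intro x h
    rw [hjj, hj2 x h, neg_neg]
  let P := {x : R // jj x = 1}
  obtain ⟨m, hm⟩ : ∃ m, m = Fintype.card P := ⟨_, rfl⟩
  let φ : P ≃ Fin m := (Fintype.equivFin P).trans (finCongr hm.symm)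
  have hlt : ∀ i : Fin (2 * m), ¬ (i : ℕ) < m → ((Fin.rev i : Fin (2 * m)) : ℕ) < m := by
    intro i hi
    rw [Fin.val_rev]
    omega
  let Ψ : Fin (2 * m) → R := fun i =>
    if h : (i : ℕ) < m then (φ.symm ⟨i, h⟩ : R) else inv (φ.symm ⟨(Fin.rev i : Fin (2 * m)), hlt i h⟩ : R)
  let Φ : R → Fin (2 * m) := fun x =>
    if h : jj x = 1 then Fin.castLE (by omega) (φ ⟨x, h⟩)
    else Fin.rev (Fin.castLE (by omega) (φ ⟨inv x, hj4 x h⟩))
  have hΨ1 : ∀ (i : Fin (2 * m)) (h : (i : ℕ) < m), Ψ i = (φ.symm ⟨i, h⟩ : R) := by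
    intro i h
    simp only [Ψ, dif_pos h]
  have hΨ2 : ∀ (i : Fin (2 * m)) (h : ¬ (i : ℕ) < m),
      Ψ i = inv (φ.symm ⟨(Fin.rev i : Fin (2 * m)), hlt i h⟩ : R) := by
    intro i h
    simp only [Ψ, dif_neg h]
  have hjΨ : ∀ i : Fin (2 * m), jj (Ψ i) = if (i : ℕ) < m then 1 else -1 := by
    intro i
    by_cases h : (i : ℕ) < m
    · rw [hΨ1 i h, if_pos h]
      exact (φ.symm ⟨i, h⟩).2
    · rw [hΨ2 i h, if_neg h, hjj, (φ.symm ⟨_, hlt i h⟩).2]
  have hrev : ∀ i : Fin (2 * m), Ψ (Fin.rev i) = inv (Ψ i) := by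
    intro i
    by_cases h : (i : ℕ) < m
    · have h' : ¬ ((Fin.rev i : Fin (2 * m)) : ℕ) < m := by
        rw [Fin.val_rev]
        omega
      rw [hΨ1 i h, hΨ2 _ h']
      simp only [Fin.rev_rev]
    · rw [hΨ2 i h, hinv, hΨ1 _ (hlt i h)]
  have hleft : Function.LeftInverse Φ Ψ := by
    intro i
    have hi := hjΨ i
    by_cases h : (i : ℕ) < m
    · rw [if_pos h] at hi
      simp only [Φ, dif_pos hi]
      apply Fin.ext
      rw [Fin.val_castLE]
      have : (⟨Ψ i, hi⟩ : P) = φ.symm ⟨i, h⟩ := Subtype.ext (hΨ1 i h)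
      rw [this, Equiv.apply_symm_apply]
    · rw [if_neg h] at hi
      have hi' : jj (Ψ i) ≠ 1 := by
        rw [hi]
        norm_num
      simp only [Φ, dif_neg hi']
      have : (⟨inv (Ψ i), hj4 _ hi'⟩ : P) = φ.symm ⟨(Fin.rev i : Fin (2 * m)), hlt i h⟩ := by
        apply Subtype.ext
        change inv (Ψ i) = _
        rw [hΨ2 i h, hinv]
      rw [this, Equiv.apply_symm_apply]
      apply Fin.rev_injective
      rw [Fin.rev_rev]
      apply Fin.ext
      rw [Fin.val_castLE]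
  have hright : Function.RightInverse Φ Ψ := by
    intro x
    by_cases h : jj x = 1
    · have h1 : Φ x = Fin.castLE (by omega) (φ ⟨x, h⟩) := by
        simp only [Φ, dif_pos h]
      have h2 : ((Φ x : Fin (2 * m)) : ℕ) < m := by
        rw [h1, Fin.val_castLE]
        exact (φ ⟨x, h⟩).2
      rw [hΨ1 _ h2]
      have h3 : (⟨(Φ x : Fin (2 * m)), h2⟩ : Fin m) = φ ⟨x, h⟩ := by
        apply Fin.ext
        change ((Φ x : Fin (2 * m)) : ℕ) = _
        rw [h1, Fin.val_castLE]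
      rw [h3, Equiv.symm_apply_apply]
    · have h1 : Φ x = Fin.rev (Fin.castLE (by omega) (φ ⟨inv x, hj4 x h⟩)) := by
        simp only [Φ, dif_neg h]
      have h2 : ¬ ((Φ x : Fin (2 * m)) : ℕ) < m := by
        rw [h1, Fin.val_rev, Fin.val_castLE]
        have := (φ ⟨inv x, hj4 x h⟩).2
        omega
      rw [hΨ2 _ h2]
      have h3 : (⟨(Fin.rev (Φ x) : Fin (2 * m)), hlt _ h2⟩ : Fin m) = φ ⟨inv x, hj4 x h⟩ := by
        apply Fin.ext
        change ((Fin.rev (Φ x) : Fin (2 * m)) : ℕ) = _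
        rw [h1, Fin.rev_rev, Fin.val_castLE]
      rw [h3, Equiv.symm_apply_apply]
      exact hinv x
  let E : Fin (2 * m) ≃ R := ⟨Ψ, Φ, hleft, hright⟩
  refine ⟨m, e.reindex E.symm, fun x y => ?_⟩
  rw [Module.Basis.reindex_apply, Module.Basis.reindex_apply, Equiv.symm_symm]
  change w (e (Ψ x)) (e (Ψ y)) = _
  rw [hω]
  unfold JJ
  rw [hjΨ x, ← hrev x]
  have hinj : Ψ y = Ψ (Fin.rev x) ↔ y = Fin.rev x := hleft.injective.eq_iff
  by_cases h : y = Fin.rev x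
  · rw [if_pos h, if_pos (hinj.2 h)]
  · rw [if_neg h, if_neg fun h' => h (hinj.1 h')]

end Pool.Agent.Q176.D3
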