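import Mathlib
import Pool.Agent.Q176.D3.Gen1

/-!
# Project D3 of helper60: JOB POL (polarization)
-/

set_option autoImplicit false

namespace Pool.Agent.Q176.D3

open Pool.Agent.H204R3.CM Pool.Agent.Q60.D3

/-- the signs of the polarization formula -/
def sg (S : Finset (Fin 3)) : ℤ := (-1) ^ (S.card + 1)

theorem sg_sum (r : Fin 3 → Fin 3) :
    ∑ S : Finset (Fin 3), (if ∀ k, r k ∈ S then sg S else 0) =
      if Function.Bijective r then 1 else 0 := by
  revert r
  decide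

theorem sum_perm {M : Type} [AddCommMonoid M] (F : (Fin 3 → Fin 3) → M) :
    ∑ r : Fin 3 → Fin 3, (if Function.Bijective r then F r else 0) =
      ∑ s : Equiv.Perm (Fin 3), F s := by
  rw [← Finset.sum_filter]
  refine Finset.sum_bij (fun p h => Equiv.ofBijective p (Finset.mem_filter.1 h).2) ?_ ?_ ?_ ?_
  · intro a _
    exact Finset.mem_univ _
  · intro a _ b _ h
    ext k
    have := congrArg (fun e : Equiv.Perm (Fin 3) => e k) h
    exact congrArg Fin.val this
  · intro s _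
    exact ⟨s, Finset.mem_filter.2 ⟨Finset.mem_univ _, s.bijective⟩, by ext k; rfl⟩
  · intro a _
    rfl

theorem polarize {V : Type} [AddCommGroup V] [Module ℚ V] {W : Type} [AddCommGroup W]
    [Module ℚ W] (δ : V [⋀^Fin 3]→ₗ[ℚ] ℂ) (h : Fin 3 → (W →ₗ[ℚ] V)) (x : Fin 3 → W) :
    ∑ S : Finset (Fin 3), (sg S : ℂ) * δ (fun k => (∑ j ∈ S, h j) (x k)) =
      ∑ s : Equiv.Perm (Fin 3), δ (fun k => h (s k) (x k)) := by
  have h1 : ∀ S : Finset (Fin 3), δ (fun k => (∑ j ∈ S, h j) (x k)) =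
      ∑ r : Fin 3 → Fin 3, if ∀ k, r k ∈ S then δ (fun k => h (r k) (x k)) else 0 := by
    intro S
    have e1 : (fun k => (∑ j ∈ S, h j) (x k)) = fun k => ∑ j ∈ S, h j (x k) := by
      funext k
      rw [LinearMap.sum_apply]
    rw [e1]
    have e2 := δ.toMultilinearMap.map_sum_finset (fun (k : Fin 3) (j : Fin 3) => h j (x k))
      (fun _ => S)
    have e3 : δ (fun k => ∑ j ∈ S, h j (x k)) =
        ∑ r ∈ Fintype.piFinset fun _ : Fin 3 => S, δ (fun k => h (r k) (x k)) := e2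
    rw [e3, ← Finset.sum_filter]
    refine Finset.sum_congr ?_ fun _ _ => rfl
    ext r
    simp [Fintype.mem_piFinset]
  simp only [h1, Finset.mul_sum]
  rw [Finset.sum_comm, ← sum_perm (fun r => δ (fun k => h (r k) (x k)))]
  refine Finset.sum_congr rfl fun r _ => ?_
  have h2 := sg_sum r
  have h3 : ∑ S : Finset (Fin 3), (sg S : ℂ) *
      (if ∀ k, r k ∈ S then δ (fun k => h (r k) (x k)) else 0) =
      ((∑ S : Finset (Fin 3), (if ∀ k, r k ∈ S then sg S else 0) : ℤ) : ℂ) *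
        δ (fun k => h (r k) (x k)) := by
    rw [Int.cast_sum, Finset.sum_mul]
    refine Finset.sum_congr rfl fun S _ => ?_
    split_ifs <;> simp
  rw [h3, h2]
  split_ifs <;> simp

theorem sum_app {ι H κ : Type} [AddCommGroup H] [Module ℚ H] (s : Finset ι)
    (f : ι → MultilinearMap ℚ (fun _ : κ => H) ℂ) (v : κ → H) :
    (∑ i ∈ s, f i) v = ∑ i ∈ s, f i v := by
  classical
  induction s using Finset.induction_on with
  | empty => rfl
  | insert a t ha ih =>
    rw [Finset.sum_insert ha, Finset.sum_insert ha, MultilinearMap.add_apply, ih]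

theorem isHom_sum (X A E : AV) (h : Fin 3 → (X.H →ₗ[ℚ] A.H)) (hh : ∀ k, IsHom X A (h k))
    (S : Finset (Fin 3)) :
    IsHom (X.prod E) (A.prod E) ((∑ j ∈ S, h j).prodMap (LinearMap.id : E.H →ₗ[ℚ] E.H)) := by
  choose C hC using hh
  refine ⟨(∑ j ∈ S, C j).prodMap (LinearMap.id : E.T →ₗ[ℂ] E.T), ?_⟩
  rintro ⟨w, y⟩
  change ((∑ j ∈ S, C j) (X.per w), E.per y) = (A.per ((∑ j ∈ S, h j) w), E.per y)
  rw [LinearMap.sum_apply, LinearMap.sum_apply, map_sum, Finset.sum_congr rfl fun j _ => hC j w]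

theorem pol' : S_pol := by
  intro X A E δ ε G hG hgood h hh G' hG'
  obtain ⟨hadd, hsmul, hzero⟩ := good_lin (X.prod E) (Fin 3 ⊕ Fin 1)
  -- the pull-backs
  let P : Finset (Fin 3) → MultilinearMap ℚ (fun _ : Fin 3 ⊕ Fin 1 => (X.prod E).H) ℂ :=
    fun S => G.compLinearMap fun _ => ((∑ j ∈ S, h j).prodMap (LinearMap.id : E.H →ₗ[ℚ] E.H) :
      (X.prod E).H →ₗ[ℚ] (A.prod E).H)
  have hP : ∀ S, Good (X.prod E) (Fin 3 ⊕ Fin 1) (P S) := fun S =>
    good_pull (X.prod E) (A.prod E) (Fin 3 ⊕ Fin 1) _ (isHom_sum X A E h hh S) G hgood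
  have hsum : Good (X.prod E) (Fin 3 ⊕ Fin 1) (∑ S : Finset (Fin 3), (sg S : ℂ) • P S) := by
    have : ∀ T : Finset (Finset (Fin 3)),
        Good (X.prod E) (Fin 3 ⊕ Fin 1) (∑ S ∈ T, (sg S : ℂ) • P S) := by
      intro T
      induction T using Finset.induction_on with
      | empty => rw [Finset.sum_empty]; exact hzero
      | insert a T ha ih =>
        rw [Finset.sum_insert ha]
        exact hadd _ _ (hsmul _ _ (hP a)) ih
    exact this _
  have hval : ∑ S : Finset (Fin 3), (sg S : ℂ) • P S =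
      ∑ s : Equiv.Perm (Fin 3), (Equiv.Perm.sign s) •
        G'.domDomCongr (Equiv.Perm.sumCongr s⁻¹ (1 : Equiv.Perm (Fin 1))) := by
    refine MultilinearMap.ext fun (v : Fin 3 ⊕ Fin 1 → X.H × E.H) => ?_
    have e1 : (∑ S : Finset (Fin 3), (sg S : ℂ) • P S) v =
        ∑ S : Finset (Fin 3), (sg S : ℂ) * P S v := by
      exact sum_app (H := (X.prod E).H) _ _ v
    have e2 : (∑ s : Equiv.Perm (Fin 3), (Equiv.Perm.sign s) •
        G'.domDomCongr (Equiv.Perm.sumCongr s⁻¹ (1 : Equiv.Perm (Fin 1)))) v =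
        ∑ s : Equiv.Perm (Fin 3), (Equiv.Perm.sign s) •
          G' (fun i => v (Equiv.Perm.sumCongr s⁻¹ (1 : Equiv.Perm (Fin 1)) i)) := by
      exact sum_app (H := (X.prod E).H) _ _ v
    rw [e1, e2]
    have e3 : ∀ S, P S v = δ (fun k => (∑ j ∈ S, h j) (v (Sum.inl k)).1) *
        ε (fun k => (v (Sum.inr k)).2) := by
      intro S
      exact hG _
    have e4 : ∀ s : Equiv.Perm (Fin 3), (Equiv.Perm.sign s) •
        G' (fun i => v (Equiv.Perm.sumCongr s⁻¹ (1 : Equiv.Perm (Fin 1)) i)) =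
        δ (fun k => h (s k) (v (Sum.inl k)).1) * ε (fun k => (v (Sum.inr k)).2) := by
      intro s
      have e0 : G' (fun i => v (Equiv.Perm.sumCongr s⁻¹ (1 : Equiv.Perm (Fin 1)) i)) =
          δ (fun l => h l (v (Sum.inl (s⁻¹ l))).1) * ε (fun k => (v (Sum.inr k)).2) := hG' _
      rw [e0, ← smul_mul_assoc]
      congr 1
      have e5 := δ.map_perm (fun l => h l (v (Sum.inl (s⁻¹ l))).1) s
      have e6 : δ (fun k => h (s k) (v (Sum.inl k)).1) =
          δ ((fun l => h l (v (Sum.inl (s⁻¹ l))).1) ∘ ⇑s) := by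
        congr 1
        funext k
        simp
      rw [e6, e5]
    simp only [e3, e4, ← mul_assoc]
    rw [← Finset.sum_mul, ← Finset.sum_mul, polarize δ h (fun k => (v (Sum.inl k)).1)]
  rw [hval] at hsum
  unfold Good at hsum ⊢
  have hfin : MultilinearMap.alternatization (∑ s : Equiv.Perm (Fin 3), (Equiv.Perm.sign s) •
      G'.domDomCongr (Equiv.Perm.sumCongr s⁻¹ (1 : Equiv.Perm (Fin 1)))) =
      6 • MultilinearMap.alternatization G' := by
    rw [map_sum]
    have h6 : (6 : ℕ) = (Finset.univ : Finset (Equiv.Perm (Fin 3))).card := by decide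
    rw [h6, ← Finset.sum_const]
    refine Finset.sum_congr rfl fun s _ => ?_
    have e7 : MultilinearMap.alternatization ((Equiv.Perm.sign s) •
        G'.domDomCongr (Equiv.Perm.sumCongr s⁻¹ (1 : Equiv.Perm (Fin 1)))) =
        (Equiv.Perm.sign s) • MultilinearMap.alternatization
          (G'.domDomCongr (Equiv.Perm.sumCongr s⁻¹ (1 : Equiv.Perm (Fin 1)))) := by
      rw [Units.smul_def, Units.smul_def, map_zsmul]
    rw [e7, alt_perm, smul_smul, Equiv.Perm.sign_sumCongr, Equiv.Perm.sign_inv, map_one,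
      mul_one, Int.units_mul_self, one_smul]
  rw [hfin] at hsum
  exact (nsmul_mem_iff _ 6 (by norm_num) _).mp hsum

theorem pol (_ : S_good_alt) (_ : S_good_lin) (_ : S_good_reindex) (_ : S_good_pull) : S_pol :=
  pol'

end Pool.Agent.Q176.D3
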